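import Pool.Agent.W703.TL.Main
open MeasureTheory Set

namespace Pool.Agent.Results.MP_793d1e_an.AlmostPeriodic

open Pool.Agent.W703.TL

/-- For every measurable set of positive measure there is `ε > 0` such that every translation set
with which it tiles the line at level one and which has one `ε`-almost period of size more
than `ε` has a periodic structure. -/
theorem result (Ω : Set ℝ) (hΩ : MeasurableSet Ω) (h0 : 0 < volume Ω) :
    ∃ ε : ℝ, 0 < ε ∧ ∀ L : Set ℝ, Tiles Ω L → ∀ τ : ℝ, ε < |τ| →
      Within ε L {x | x - τ ∈ L} → HasPeriodicStructure L := by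
  obtain ⟨u, l, hl, hκ⟩ := exists_dense_interval Ω hΩ h0
  exact ⟨l / 32, by positivity, fun L hL τ hτ hw => almost_period Ω hΩ h0 u l hl hκ L hL τ hτ hw⟩

end Pool.Agent.Results.MP_793d1e_an.AlmostPeriodic
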