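import Pool.Agent.W703.TL.Main
open MeasureTheory Set

namespace Pool.Agent.Results.MP_793d1e_an.LocalRigidity

open Pool.Agent.W703.TL

/-- Level one tilings of the line by translates of a set of positive measure are locally rigid:
two translation sets which are matched by a bijection with displacements at most `ε = ε(Ω)`
are translates of each other. -/
theorem result (Ω : Set ℝ) (hΩ : MeasurableSet Ω) (h0 : 0 < volume Ω) :
    ∃ ε : ℝ, 0 < ε ∧ ∀ L L' : Set ℝ, Tiles Ω L → Tiles Ω L' → Within ε L L' →
      ∃ c : ℝ, L' = {x | x - c ∈ L} := by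
  obtain ⟨u, l, hl, hκ⟩ := exists_dense_interval Ω hΩ h0
  refine ⟨l / 32, by positivity, fun L L' hL hL' hw => ?_⟩
  obtain ⟨c, -, hc⟩ := rigidity Ω hΩ u l hl hκ L L' hL hL' hw
  exact ⟨c, hc⟩

end Pool.Agent.Results.MP_793d1e_an.LocalRigidity
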